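import Pool.Agent.H798.BV.Stm3

/-!
# (G0Q), adapted from `Pool/Agent/H686/BV/G0.lean` (helper686) and
`Pool/Agent/H725/BV/G0p.lean` (helper725)
-/

set_option autoImplicit false

open Polynomial

namespace Pool.Agent.H385.BV

open Pool.Agent.H798.BV

/-- elementary inequality for the logarithm -/
theorem g0_log {R : ℝ} (hR : 0 < R) : (R - 1) ^ 2 ≤ 2 * (R - 1 - Real.log R) * (1 + R) := by
  obtain ⟨x, hx⟩ : ∃ x, x = Real.sqrt R := ⟨_, rfl⟩
  have hx0 : 0 < x := by rw [hx]; exact Real.sqrt_pos.2 hR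
  have hxR : x ^ 2 = R := by rw [hx]; exact Real.sq_sqrt hR.le
  have h1 : Real.log R ≤ 2 * (x - 1) := by
    rw [← hxR, Real.log_pow]
    have := Real.log_le_sub_one_of_pos hx0
    push_cast
    linarith
  have h2 : (x - 1) ^ 2 ≤ R - 1 - Real.log R := by nlinarith
  have h3 : 2 * (x - 1) ^ 2 * (1 + R) ≤ 2 * (R - 1 - Real.log R) * (1 + R) := by
    have : 0 ≤ 1 + R := by linarith
    nlinarith
  refine le_trans ?_ h3
  rw [← hxR]
  nlinarith [sq_nonneg ((x - 1) * (x - 1)), sq_nonneg (x - 1)]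

theorem g0_chi {p : ℝ} (hp1 : 1 < p) {z : ℂ} (hz : z ≠ 0) :
    ‖z - chi p z‖ ≤ |‖z‖ ^ p - 1| := by
  have hr : 0 < ‖z‖ := norm_pos_iff.2 hz
  have h1 : z - chi p z = ((1 - ‖z‖ ^ (p - 2) : ℝ) : ℂ) * z := by
    unfold chi
    push_cast
    ring
  rw [h1, norm_mul, Complex.norm_real, Real.norm_eq_abs]
  have h2 : |1 - ‖z‖ ^ (p - 2)| * ‖z‖ = |‖z‖ - ‖z‖ ^ (p - 1)| := by
    have e : ‖z‖ ^ (p - 1) = ‖z‖ ^ (p - 2) * ‖z‖ := by
      rw [show p - 1 = (p - 2) + 1 by ring, Real.rpow_add_one hr.ne']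
    have e2 : ‖z‖ - ‖z‖ ^ (p - 1) = (1 - ‖z‖ ^ (p - 2)) * ‖z‖ := by
      rw [e]
      ring
    rw [e2, abs_mul, abs_of_pos hr]
  rw [h2]
  rcases le_total 1 ‖z‖ with h | h
  · have a1 : 1 ≤ ‖z‖ ^ (p - 1) := Real.one_le_rpow h (by linarith)
    have a2 : ‖z‖ ≤ ‖z‖ ^ p := by
      have := Real.rpow_le_rpow_of_exponent_le h hp1.le
      rwa [Real.rpow_one] at this
    have a3 : ‖z‖ ^ (p - 1) ≤ ‖z‖ ^ p := Real.rpow_le_rpow_of_exponent_le h (by linarith)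
    rw [abs_of_nonneg (by linarith : 0 ≤ ‖z‖ ^ p - 1), abs_le]
    constructor <;> linarith
  · have a1 : ‖z‖ ^ (p - 1) ≤ 1 := Real.rpow_le_one hr.le h (by linarith)
    have a2 : ‖z‖ ^ p ≤ ‖z‖ := by
      have := Real.rpow_le_rpow_of_exponent_ge hr h hp1.le
      rwa [Real.rpow_one] at this
    have a3 : ‖z‖ ^ p ≤ ‖z‖ ^ (p - 1) :=
      Real.rpow_le_rpow_of_exponent_ge hr h (by linarith)
    rw [abs_of_nonpos (by linarith : ‖z‖ ^ p - 1 ≤ 0), abs_le]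
    constructor <;> linarith

theorem t_G0Q : S_G0Q := by
  intro p hp1 n hn z hsum hchi
  by_cases h0 : ∃ j, z j = 0
  · obtain ⟨j, hj⟩ := h0
    rw [Finset.prod_eq_zero (Finset.mem_univ j) hj, norm_zero]
    exact Real.exp_nonneg _
  push Not at h0
  have hn0 : (0 : ℝ) < n := by exact_mod_cast hn
  have hr : ∀ j, 0 < ‖z j‖ := fun j => norm_pos_iff.2 (h0 j)
  have hR : ∀ j, 0 < ‖z j‖ ^ p := fun j => Real.rpow_pos_of_pos (hr j) p
  have h2 : ‖∑ j, z j‖ ≤ ∑ j, |‖z j‖ ^ p - 1| := by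
    have e : ∑ j, z j = ∑ j, (z j - chi p (z j)) := by
      rw [Finset.sum_sub_distrib, hchi, sub_zero]
    rw [e]
    exact (norm_sum_le _ _).trans (Finset.sum_le_sum fun j _ => g0_chi hp1 (h0 j))
  have hlog : ∀ j, 0 ≤ ‖z j‖ ^ p - 1 - Real.log (‖z j‖ ^ p) := fun j => by
    have := Real.log_le_sub_one_of_pos (hR j)
    linarith
  have h4 : (∑ j, |‖z j‖ ^ p - 1|) ^ 2 ≤
      (∑ j, 2 * (‖z j‖ ^ p - 1 - Real.log (‖z j‖ ^ p))) * ∑ j, (1 + ‖z j‖ ^ p) := by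
    refine Finset.sum_sq_le_sum_mul_sum_of_sq_le_mul _ (fun j _ => ?_) (fun j _ => ?_)
      (fun j _ => ?_)
    · have := hlog j
      linarith
    · have := hR j
      linarith
    · rw [sq_abs]
      exact g0_log (hR j)
  have h5 : ∑ j, (1 + ‖z j‖ ^ p) = 2 * n := by
    rw [Finset.sum_add_distrib, hsum]
    simp
    ring
  set L := ∑ j, Real.log ‖z j‖ with hL
  have h6 : ∑ j, Real.log (‖z j‖ ^ p) = p * L := by
    rw [hL, Finset.mul_sum]
    exact Finset.sum_congr rfl fun j _ => Real.log_rpow (hr j) p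
  have h7 : ∑ j, 2 * (‖z j‖ ^ p - 1 - Real.log (‖z j‖ ^ p)) = -(2 * p * L) := by
    rw [← Finset.mul_sum, Finset.sum_sub_distrib, Finset.sum_sub_distrib, hsum, h6]
    simp
    ring
  have hLneg : L ≤ 0 := by
    have := Finset.sum_nonneg (s := Finset.univ) fun j _ => hlog j
    rw [Finset.sum_sub_distrib, Finset.sum_sub_distrib, hsum, h6] at this
    simp at this
    by_contra hcon
    push Not at hcon
    have : 0 < p * L := by positivity
    linarith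
  rw [h5, h7] at h4
  have h8 : ‖∑ j, z j‖ ^ 2 ≤ -(4 * p * L * n) := by
    have := pow_le_pow_left₀ (norm_nonneg _) h2 2
    nlinarith
  have h10 : ‖∏ j, z j‖ = Real.exp L := by
    rw [norm_prod, hL, Real.exp_sum]
    exact Finset.prod_congr rfl fun j _ => (Real.exp_log (hr j)).symm
  rw [h10]
  refine Real.exp_le_exp.2 ?_
  rw [norm_div, div_pow, Complex.norm_natCast]
  have hp0 : (0 : ℝ) < p := by linarith
  have h11 : (n : ℝ) * (‖∑ j, z j‖ ^ 2 / n ^ 2) / (4 * p) = ‖∑ j, z j‖ ^ 2 / (4 * p * n) := by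
    field_simp
  rw [h11, le_neg, div_le_iff₀ (by positivity)]
  linarith

end Pool.Agent.H385.BV
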